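import Pool.Agent.CGD.IntDet

/-!
# Countable sequential groups and determined convergence games (MP_a9e3cf_lc)

THEOREM (ZFC).  For a countable Hausdorff sequential group `G` the following are equivalent: `G` is `k_ω` or metrizable; all
convergence games of ideals on countable sets are determined for `G`; all convergence games with integer moves of ideals on
`ℕ` are determined; three special families of convergence games are determined; for every family of subsets of a countable
set a dichotomy holds.  So the statement of Q1 is equivalent to the determinacy of all convergence games on countable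
sequential groups.
-/

set_option autoImplicit false

namespace Pool.Agent.Results.MP_a9e3cf_lc.ConvergenceGames

open Set Filter Topology

/-- `X` is a quotient image of a topological sum of countably many compact spaces. -/
def IsKOmega (X : Type) [TopologicalSpace X] : Prop :=
  ∃ (K : ℕ → Type) (_ : ∀ n, TopologicalSpace (K n)) (_ : ∀ n, CompactSpace (K n))
    (q : (Σ n, K n) → X), IsQuotientMap q

/-- `I` is an ideal of subsets of `R`. -/
structure IsIdeal {R : Type} (I : Set (Set R)) : Prop where
  empty : ∅ ∈ I
  sub : ∀ A B, A ⊆ B → B ∈ I → A ∈ I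
  union : ∀ A B, A ∈ I → B ∈ I → A ∪ B ∈ I

/-- Player I has a winning strategy `σ` in the convergence game of `p : R → G`, `g ∈ G` and `I`: in the `k`-th move player I
plays a set `V k ∉ I` and player II answers with a point `c k ∈ V k`; player I wins if `p (c k)` converges to `g`.
(The strategy depends only on the moves `c 0, ..., c (k - 1)` of player II.) -/
def OneWins {R G : Type} [TopologicalSpace G] (p : R → G) (g : G) (I : Set (Set R)) : Prop :=
  ∃ σ : List R → Set R, (∀ l, σ l ∉ I) ∧
    ∀ c : ℕ → R, (∀ k, c k ∈ σ ((List.range k).map c)) → Tendsto (fun k => p (c k)) atTop (𝓝 g)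

/-- Player II has a winning strategy `τ` in this game. -/
def TwoWins {R G : Type} [TopologicalSpace G] (p : R → G) (g : G) (I : Set (Set R)) : Prop :=
  ∃ τ : List (Set R) → R, ∀ V : ℕ → Set R, (∀ k, V k ∉ I) →
    (∀ k, τ ((List.range (k + 1)).map V) ∈ V k) ∧
      ¬ Tendsto (fun k => p (τ ((List.range (k + 1)).map V))) atTop (𝓝 g)

/-- The convergence game of `p`, `g` and `I` is determined. -/
def GameDetermined {R G : Type} [TopologicalSpace G] (p : R → G) (g : G) (I : Set (Set R)) : Prop :=
  OneWins p g I ∨ TwoWins p g I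

/-- The game on the natural numbers with payoff set `A ⊆ ℕ^ℕ` (the players choose in turn the numbers `x 0, x 1, ...`,
player I wins if `x ∈ A`) is determined. -/
def Determined (A : Set (ℕ → ℕ)) : Prop :=
  (∃ σ : List ℕ → ℕ, ∀ x : ℕ → ℕ, (∀ i, x (2 * i) = σ ((List.range (2 * i)).map x)) → x ∈ A) ∨
    ∃ τ : List ℕ → ℕ, ∀ x : ℕ → ℕ, (∀ i, x (2 * i + 1) = τ ((List.range (2 * i + 1)).map x)) → x ∉ A

/-- In the convergence game with integer moves player I plays `x (2 i)` and player II plays `x (2 i + 1)` at stage `i`.  There
is a pick at stage `i` if both numbers are nonzero. -/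
def Pick (x : ℕ → ℕ) (i : ℕ) : Prop := x (2 * i) ≠ 0 ∧ x (2 * i + 1) ≠ 0

instance (x : ℕ → ℕ) (i : ℕ) : Decidable (Pick x i) := inferInstanceAs (Decidable (_ ∧ _))

/-- The phase of stage `i` starts at stage `0` or immediately after the last pick before stage `i`. -/
def start (x : ℕ → ℕ) : ℕ → ℕ
  | 0 => 0
  | i + 1 => if Pick x i then i + 1 else start x i

/-- The payoff set of the convergence game with integer moves of `p : ℕ → G`, `g ∈ G` and `I`.  A pick at stage `i` picks the
number `i - start x i`.  If there are infinitely many picks, player I wins if the picked numbers are mapped to a sequence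
which converges to `g`.  Otherwise player I wins if in the last phase, which starts at stage `N`, he has played the
characteristic function of a set outside `I`. -/
def payoff {G : Type} [TopologicalSpace G] (p : ℕ → G) (g : G) (I : Set (Set ℕ)) : Set (ℕ → ℕ) :=
  {x | ((∀ n, ∃ i, n ≤ i ∧ Pick x i) ∧
      ∀ O : Set G, IsOpen O → g ∈ O → ∃ n, ∀ i, n ≤ i → Pick x i → p (i - start x i) ∈ O) ∨
    ∃ N, start x N = N ∧ (∀ i, N ≤ i → ¬ Pick x i) ∧ {c | x (2 * (N + c)) ≠ 0} ∉ I}

/-- The infinite set `C` is mapped by `p` to a set converging to `g`. -/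
def ConvergesTo {R G : Type} [TopologicalSpace G] (p : R → G) (C : Set R) (g : G) : Prop :=
  C.Infinite ∧ ∀ O : Set G, IsOpen O → g ∈ O → (C \ p ⁻¹' O).Finite

/-- Countably many members of `P` have images in arbitrarily small neighbourhoods of `g`, or countably many sets outside
`P` meet all sets converging to `g` in infinite sets. -/
def Dichotomy {R G : Type} [TopologicalSpace G] (p : R → G) (g : G) (P : Set (Set R)) : Prop :=
  (∃ V : ℕ → Set R, (∀ i, V i ∈ P) ∧ ∀ O : Set G, IsOpen O → g ∈ O → ∃ i, V i ⊆ p ⁻¹' O) ∨
    ∃ V : ℕ → Set R, (∀ i, V i ∉ P) ∧ ∀ C : Set R, ConvergesTo p C g → ∃ i, (C ∩ V i).Infinite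

/-- The ideal `Fin³` on `ℕ³`. -/
def finThree : Set (Set (ℕ × ℕ × ℕ)) :=
  {V | ¬ ∃ᶠ n in atTop, ∃ᶠ m in atTop, ∃ᶠ j in atTop, (n, m, j) ∈ V}

/-- The statement of Q1: every countable sequential group is `k_ω` or metrizable. -/
def StatementOne : Prop :=
  ∀ (G : Type) [Group G] [TopologicalSpace G] [IsTopologicalGroup G] [T2Space G] [Countable G]
    [SequentialSpace G], IsKOmega G ∨ TopologicalSpace.MetrizableSpace G

/-- All convergence games of ideals on countable sets are determined for countable sequential groups. -/
def StatementGames : Prop :=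
  ∀ (G : Type) [Group G] [TopologicalSpace G] [IsTopologicalGroup G] [T2Space G] [Countable G]
    [SequentialSpace G], ∀ (R : Type) [Countable R] [Nonempty R] (I : Set (Set R)), IsIdeal I →
      ∀ (p : R → G) (g : G), GameDetermined p g I

private theorem start_eq (x : ℕ → ℕ) (i : ℕ) : start x i = Pool.Agent.CGD.st x i := by
  induction i with
  | zero => rfl
  | succ i ih =>
    rw [start, Pool.Agent.CGD.st, ih]
    rfl

private theorem payoff_eq {G : Type} [TopologicalSpace G] (p : ℕ → G) (g : G) (I : Set (Set ℕ)) :
    payoff p g I = Pool.Agent.CGD.Pay p g fun V => V ∉ I := by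
  ext x
  unfold payoff Pool.Agent.CGD.Pay
  simp only [start_eq]
  rfl

private theorem ideal_iff {R : Type} {I : Set (Set R)} : IsIdeal I ↔ Pool.Agent.CGD.IsIdeal I :=
  ⟨fun h => ⟨h.empty, h.sub, h.union⟩, fun h => ⟨h.empty, h.sub, h.union⟩⟩

theorem result :
    (∀ (G : Type) [Group G] [TopologicalSpace G] [IsTopologicalGroup G] [T2Space G] [Countable G] [SequentialSpace G],
      [IsKOmega G ∨ TopologicalSpace.MetrizableSpace G,
        ∀ (R : Type) [Countable R] [Nonempty R] (I : Set (Set R)), IsIdeal I →
          ∀ (p : R → G) (g : G), GameDetermined p g I,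
        ∀ I : Set (Set ℕ), IsIdeal I → ∀ (p : ℕ → G) (g : G), Determined (payoff p g I),
        GameDetermined (id : G → G) 1 {V | IsCompact (closure V)} ∧
          GameDetermined (id : G → G) 1 {V | IsNowhereDense V} ∧
          ∀ (p : ℕ × ℕ × ℕ → G) (g : G), GameDetermined p g finThree,
        ∀ (R : Type) [Countable R] (P : Set (Set R)) (p : R → G) (g : G), Dichotomy p g P].TFAE) ∧
    (StatementOne ↔ StatementGames) := by
  have key : ∀ (G : Type) [Group G] [TopologicalSpace G] [IsTopologicalGroup G] [T2Space G] [Countable G]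
      [SequentialSpace G],
      [IsKOmega G ∨ TopologicalSpace.MetrizableSpace G,
        ∀ (R : Type) [Countable R] [Nonempty R] (I : Set (Set R)), IsIdeal I →
          ∀ (p : R → G) (g : G), GameDetermined p g I,
        ∀ I : Set (Set ℕ), IsIdeal I → ∀ (p : ℕ → G) (g : G), Determined (payoff p g I),
        GameDetermined (id : G → G) 1 {V | IsCompact (closure V)} ∧
          GameDetermined (id : G → G) 1 {V | IsNowhereDense V} ∧
          ∀ (p : ℕ × ℕ × ℕ → G) (g : G), GameDetermined p g finThree,
        ∀ (R : Type) [Countable R] (P : Set (Set R)) (p : R → G) (g : G), Dichotomy p g P].TFAE := by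
    intro G _ _ _ _ _ _
    have hm := Pool.Agent.CGD.main_a G
    have h2 := hm.out 0 1
    have h3 := hm.out 0 2
    have h4 := hm.out 0 3
    tfae_have 1 → 2 := fun h R _ _ I hI p g => h2.1 h R I (ideal_iff.1 hI) p g
    tfae_have 2 → 1 := fun h => h2.2 fun R _ _ I hI p g => h R I (ideal_iff.2 hI) p g
    tfae_have 1 → 3 := fun h I hI p g => by
      rw [payoff_eq]
      exact Pool.Agent.CGD.int_ideal h p g (ideal_iff.1 hI)
    tfae_have 3 → 1 := fun h => Pool.Agent.CGD.of_int fun I hI p g => by
      have h1 := h I (ideal_iff.2 hI) p g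
      rw [payoff_eq] at h1
      exact h1
    tfae_have 1 → 4 := h3.1
    tfae_have 4 → 1 := h3.2
    tfae_have 1 → 5 := fun h R _ P p g => h4.1 h R (fun V => V ∈ P) p g
    tfae_have 5 → 1 := fun h => h4.2 fun R _ P p g => h R {V | P V} p g
    tfae_finish
  refine ⟨key, fun h G _ _ _ _ _ _ => ?_, fun h G _ _ _ _ _ _ => ?_⟩
  · exact ((key G).out 0 1).1 (h G)
  · exact ((key G).out 0 1).2 (h G)

end Pool.Agent.Results.MP_a9e3cf_lc.ConvergenceGames
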