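import Pool.Agent.CGD.CovSeq

/-!
# Countable groups whose topology has the covering property (MP_a9e3cf_lc)

THEOREM (ZFC).  For a countable Hausdorff topological group `G` the following are equivalent: the topology is determined by
a set of sequences converging to `1` which has the covering property; `G` is sequential and the set of all sequences
converging to `1` has the covering property; `G` is sequential and its topology has the covering property; the same with
analytic sets; `G` is `k_ω` or metrizable.
-/

set_option autoImplicit false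

namespace Pool.Agent.Results.MP_a9e3cf_lc.CoveringProperty

open Filter Topology MeasureTheory

/-- `X` is a quotient image of a topological sum of countably many compact spaces. -/
def IsKOmega (X : Type) [TopologicalSpace X] : Prop :=
  ∃ (K : ℕ → Type) (_ : ∀ n, TopologicalSpace (K n)) (_ : ∀ n, CompactSpace (K n))
    (q : (Σ n, K n) → X), IsQuotientMap q

/-- The covering property of `A`: for every family `ℰ` of closed sets, countably many members of `ℰ` cover `A`, or there is a
continuous map `φ` from a nonempty second countable Baire space to `A` which does not map any nonempty open set into a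
member of `ℰ`. -/
def HasCoveringProperty {X : Type} [TopologicalSpace X] (A : Set X) : Prop :=
  ∀ ℰ : Set (Set X), (∀ E ∈ ℰ, IsClosed E) →
    (∃ 𝒞 ⊆ ℰ, 𝒞.Countable ∧ A ⊆ ⋃₀ 𝒞) ∨
    ∃ (H : Type) (_ : TopologicalSpace H) (_ : SecondCountableTopology H) (_ : BaireSpace H) (_ : Nonempty H)
      (φ : H → X), Continuous φ ∧ Set.range φ ⊆ A ∧ ∀ U : Set H, IsOpen U → U.Nonempty → ∀ E ∈ ℰ, ¬ φ '' U ⊆ E

/-- The topology of `X`, as a set of characteristic functions. -/
def topologyAsSet (X : Type) [TopologicalSpace X] : Set (X → Bool) := {φ | IsOpen {x | φ x = true}}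

/-- The set `𝒜` of sequences of elements of the countable set `G` is analytic (empty or a continuous image of the
irrationals), where `G` has the discrete topology. -/
def IsAnalyticFamily {G : Type} (𝒜 : Set (ℕ → G)) : Prop :=
  @AnalyticSet (ℕ → G) (@Pi.topologicalSpace ℕ (fun _ => G) (fun _ => ⊥)) 𝒜

/-- The set `𝒜` of sequences of elements of the countable set `G` has the covering property, where `G` has the discrete
topology. -/
def IsCoveringFamily {G : Type} (𝒜 : Set (ℕ → G)) : Prop :=
  @HasCoveringProperty (ℕ → G) (@Pi.topologicalSpace ℕ (fun _ => G) (fun _ => ⊥)) 𝒜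

/-- The sequences in `𝒜` converge to `1`, and they determine the topology of the group `G`: a set `U` is open if for
all `x ∈ U` and `a ∈ 𝒜` almost all terms of the sequence `x * a` are in `U`. -/
def Determines {G : Type} [Group G] [TopologicalSpace G] (𝒜 : Set (ℕ → G)) : Prop :=
  (∀ a ∈ 𝒜, Tendsto a atTop (𝓝 1)) ∧
    ∀ U : Set G, (∀ x ∈ U, ∀ a ∈ 𝒜, ∀ᶠ n in atTop, x * a n ∈ U) → IsOpen U

/-- The statement of Q1: every countable sequential group is `k_ω` or metrizable. -/
def StatementOne : Prop :=
  ∀ (G : Type) [Group G] [TopologicalSpace G] [IsTopologicalGroup G] [T2Space G] [Countable G]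
    [SequentialSpace G], IsKOmega G ∨ TopologicalSpace.MetrizableSpace G

/-- The statement of Q2: every countable sequential group is analytic. -/
def StatementTwo : Prop :=
  ∀ (G : Type) [Group G] [TopologicalSpace G] [IsTopologicalGroup G] [T2Space G] [Countable G]
    [SequentialSpace G], AnalyticSet (topologyAsSet G)

/-- The topology of every countable sequential group has the covering property. -/
def StatementCovering : Prop :=
  ∀ (G : Type) [Group G] [TopologicalSpace G] [IsTopologicalGroup G] [T2Space G] [Countable G]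
    [SequentialSpace G], HasCoveringProperty (topologyAsSet G)

theorem result :
    (∀ (G : Type) [Group G] [TopologicalSpace G] [IsTopologicalGroup G] [T2Space G] [Countable G],
      [(∃ 𝒜 : Set (ℕ → G), IsCoveringFamily 𝒜 ∧ Determines 𝒜),
        SequentialSpace G ∧ IsCoveringFamily {a : ℕ → G | Tendsto a atTop (𝓝 1)},
        SequentialSpace G ∧ HasCoveringProperty (topologyAsSet G),
        (∃ 𝒜 : Set (ℕ → G), IsAnalyticFamily 𝒜 ∧ Determines 𝒜),
        SequentialSpace G ∧ IsAnalyticFamily {a : ℕ → G | Tendsto a atTop (𝓝 1)},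
        SequentialSpace G ∧ AnalyticSet (topologyAsSet G),
        IsKOmega G ∨ TopologicalSpace.MetrizableSpace G].TFAE) ∧
    (StatementOne ↔ StatementCovering) ∧ (StatementTwo ↔ StatementCovering) := by
  have key : ∀ (G : Type) [Group G] [TopologicalSpace G] [IsTopologicalGroup G] [T2Space G] [Countable G],
      [(∃ 𝒜 : Set (ℕ → G), IsCoveringFamily 𝒜 ∧ Determines 𝒜),
        SequentialSpace G ∧ IsCoveringFamily {a : ℕ → G | Tendsto a atTop (𝓝 1)},
        SequentialSpace G ∧ HasCoveringProperty (topologyAsSet G),
        (∃ 𝒜 : Set (ℕ → G), IsAnalyticFamily 𝒜 ∧ Determines 𝒜),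
        SequentialSpace G ∧ IsAnalyticFamily {a : ℕ → G | Tendsto a atTop (𝓝 1)},
        SequentialSpace G ∧ AnalyticSet (topologyAsSet G),
        IsKOmega G ∨ TopologicalSpace.MetrizableSpace G].TFAE := by
    intro G _ _ _ _ _
    exact Pool.Agent.CGD.main_c G
  have k1 : ∀ (G : Type) [Group G] [TopologicalSpace G] [IsTopologicalGroup G] [T2Space G] [Countable G]
      [SequentialSpace G], HasCoveringProperty (topologyAsSet G) ↔
        (IsKOmega G ∨ TopologicalSpace.MetrizableSpace G) := by
    intro G _ _ _ _ _ hs
    have h := (key G).out 2 6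
    exact ⟨fun h1 => h.1 ⟨hs, h1⟩, fun h1 => (h.2 h1).2⟩
  have k2 : ∀ (G : Type) [Group G] [TopologicalSpace G] [IsTopologicalGroup G] [T2Space G] [Countable G]
      [SequentialSpace G], HasCoveringProperty (topologyAsSet G) ↔ AnalyticSet (topologyAsSet G) := by
    intro G _ _ _ _ _ hs
    have h := (key G).out 2 5
    exact ⟨fun h1 => (h.1 ⟨hs, h1⟩).2, fun h1 => (h.2 ⟨hs, h1⟩).2⟩
  refine ⟨key, ⟨?_, ?_⟩, ⟨?_, ?_⟩⟩
  · intro h G _ _ _ _ _ _
    exact (k1 G).2 (h G)
  · intro h G _ _ _ _ _ _
    exact (k1 G).1 (h G)
  · intro h G _ _ _ _ _ _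
    exact (k2 G).2 (h G)
  · intro h G _ _ _ _ _ _
    exact (k2 G).1 (h G)

end Pool.Agent.Results.MP_a9e3cf_lc.CoveringProperty
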