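import Pool.Agent.MAK.MainS

/-!
# Martin's axiom and countable groups determined by `Σ¹₂` sets of sequences (MP_a9e3cf_lc)

THEOREM.  Assume Martin's axiom for `ℵ₁` dense sets.  A countable Hausdorff topological group is `k_ω` or metrizable if and only if its topology is determined by a `Σ¹₂` set of sequences which converge
to `1` (or by a union of at most `ℵ₁` analytic sets of such sequences), if and only if it is sequential and the set of all sequences which converge to `1` is `Σ¹₂`, if and only if its topology is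
determined by at most `ℵ₁` first countable subspaces.
-/

set_option autoImplicit false

namespace Pool.Agent.Results.MP_a9e3cf_lc.MartinSigmaTwo

open Filter Topology MeasureTheory Cardinal

/-- Every antichain of `P` (a set of pairwise incompatible elements) is countable. -/
def CountableChainCondition (P : Type) [Preorder P] : Prop :=
  ∀ S : Set P, (∀ p ∈ S, ∀ q ∈ S, p ≠ q → ¬ ∃ r, r ≤ p ∧ r ≤ q) → S.Countable

/-- Martin's axiom for `ℵ₁` dense sets: if all antichains of `P` are countable, then for every family `𝒟` of at most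
`ℵ₁` dense subsets of `P` there is a filter `Γ` (upwards closed and directed downwards) which meets all members of
`𝒟`. -/
def MartinAxiomAlephOne : Prop :=
  ∀ (P : Type) [Preorder P] [Nonempty P], CountableChainCondition P → ∀ 𝒟 : Set (Set P), #𝒟 ≤ ℵ₁ →
    (∀ D ∈ 𝒟, ∀ p, ∃ q ∈ D, q ≤ p) →
    ∃ Γ : Set P, (∀ p ∈ Γ, ∀ q, p ≤ q → q ∈ Γ) ∧ (∀ p ∈ Γ, ∀ q ∈ Γ, ∃ r ∈ Γ, r ≤ p ∧ r ≤ q) ∧
      ∀ D ∈ 𝒟, (D ∩ Γ).Nonempty

/-- `X` is a quotient image of a topological sum of countably many compact spaces. -/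
def IsKOmega (X : Type) [TopologicalSpace X] : Prop :=
  ∃ (K : ℕ → Type) (_ : ∀ n, TopologicalSpace (K n)) (_ : ∀ n, CompactSpace (K n))
    (q : (Σ n, K n) → X), IsQuotientMap q

/-- `S` is `Σ¹₂`: the projection of a coanalytic subset of `X × ℕ^ℕ`. -/
def IsSigmaTwo {X : Type} [TopologicalSpace X] (S : Set X) : Prop :=
  ∃ C : Set (X × (ℕ → ℕ)), AnalyticSet Cᶜ ∧ S = Prod.fst '' C

/-- The set `𝒜` of sequences of elements of the countable set `G` is analytic (empty or a continuous image of the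
irrationals), where `G` has the discrete topology. -/
def IsAnalyticFamily {G : Type} (𝒜 : Set (ℕ → G)) : Prop :=
  @AnalyticSet (ℕ → G) (@Pi.topologicalSpace ℕ (fun _ => G) (fun _ => ⊥)) 𝒜

/-- The set `𝒜` of sequences of elements of the countable set `G` is `Σ¹₂`, where `G` has the discrete topology. -/
def IsSigmaTwoFamily {G : Type} (𝒜 : Set (ℕ → G)) : Prop :=
  @IsSigmaTwo (ℕ → G) (@Pi.topologicalSpace ℕ (fun _ => G) (fun _ => ⊥)) 𝒜

/-- The sequences in `𝒜` converge to `1`, and they determine the topology of the group `G`: a set `U` is open if for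
all `x ∈ U` and `a ∈ 𝒜` almost all terms of the sequence `x * a` are in `U`. -/
def Determines {G : Type} [Group G] [TopologicalSpace G] (𝒜 : Set (ℕ → G)) : Prop :=
  (∀ a ∈ 𝒜, Tendsto a atTop (𝓝 1)) ∧
    ∀ U : Set G, (∀ x ∈ U, ∀ a ∈ 𝒜, ∀ᶠ n in atTop, x * a n ∈ U) → IsOpen U

/-- The family `ℳ` of subspaces determines the topology: a set `A` is closed if `A ∩ M` is closed in `M` for all
`M ∈ ℳ`. -/
def DeterminedBy {X : Type} [TopologicalSpace X] (ℳ : Set (Set X)) : Prop :=
  ∀ A : Set X, (∀ M ∈ ℳ, IsClosed (Subtype.val ⁻¹' A : Set M)) → IsClosed A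

theorem result (hMA : MartinAxiomAlephOne) (G : Type) [Group G] [TopologicalSpace G]
    [IsTopologicalGroup G] [T2Space G] [Countable G] :
    [(∃ 𝒰 : Set (Set (ℕ → G)), #𝒰 ≤ ℵ₁ ∧ (∀ 𝒜 ∈ 𝒰, IsAnalyticFamily 𝒜) ∧ Determines (⋃₀ 𝒰)),
      ∃ 𝒜 : Set (ℕ → G), IsSigmaTwoFamily 𝒜 ∧ Determines 𝒜,
      SequentialSpace G ∧ IsSigmaTwoFamily {a : ℕ → G | Tendsto a atTop (𝓝 1)},
      ∃ ℳ : Set (Set G), #ℳ ≤ ℵ₁ ∧ (∀ M ∈ ℳ, FirstCountableTopology M) ∧ DeterminedBy ℳ,
      IsKOmega G ∨ TopologicalSpace.MetrizableSpace G].TFAE :=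
  Pool.Agent.MAK.mainS hMA G

end Pool.Agent.Results.MP_a9e3cf_lc.MartinSigmaTwo
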